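import Pool.Agent.Lib.MP_524519_ag.DU5.TR.Iface

/-! # DU5, chapter TR, module IND: a lower bound for the length gives independent classes
(helper22) -/

set_option autoImplicit false

namespace Pool.Agent.DU5.TR.H22

open Pool.Agent.DU5 Pool.Agent.DU5.TR

/-- IND. -/
theorem ind : IndStatement := by
  intro n F _ I
  have h0 : ∀ (h : Fin n → O F 3) (e : Fin n → F),
      (∑ b, e b • (Ideal.Quotient.mk I (h b)) = 0 ↔ ∑ b, e b • h b ∈ I) := by
    intro h e
    rw [← Ideal.Quotient.eq_zero_iff_mem, map_sum]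
    have h1 : ∀ b, Ideal.Quotient.mk I (e b • h b) = e b • Ideal.Quotient.mk I (h b) := fun b => rfl
    simp only [h1]
  have h1 : (n : ℕ∞) ≤ len F I ↔ (n : Cardinal) ≤ Module.rank F (O F 3 ⧸ I) := by
    unfold len
    rw [Module.length_eq_rank]
    exact Cardinal.natCast_le_toENat
  rw [h1, Module.le_rank_iff]
  constructor
  · rintro ⟨v, hv⟩
    choose h hh using fun b => Ideal.Quotient.mk_surjective (v b)
    refine ⟨h, fun e he => ?_⟩
    rw [← h0 h e] at he
    simp only [hh] at he
    exact funext (Fintype.linearIndependent_iff.1 hv e he)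
  · rintro ⟨h, hh⟩
    refine ⟨fun b => Ideal.Quotient.mk I (h b), Fintype.linearIndependent_iff.2 ?_⟩
    intro e he
    exact congrFun (hh e ((h0 h e).1 he))

end Pool.Agent.DU5.TR.H22
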